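import Mathlib

open FirstOrder

namespace Pool.Agent.MP66c0d0

/-- Function symbols: a single binary symbol, for addition. -/
inductive Func : ℕ → Type
  | add : Func 2

/-- Relation symbols: two ternary symbols. -/
inductive Rels : ℕ → Type
  | first : Rels 3
  | second : Rels 3

/-- The language with one binary function symbol and two ternary relation symbols. -/
def Lang : FirstOrder.Language.{0, 0} := ⟨Func, Rels⟩

/-- The cyclic order `C_α` on the integers: `C_α(a, b, c)` holds iff
`{aα} < {bα} < {cα}` or `{bα} < {cα} < {aα}` or `{cα} < {aα} < {bα}`. -/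
def cyc (α : ℝ) (a b c : ℤ) : Prop :=
  (Int.fract (a * α) < Int.fract (b * α) ∧ Int.fract (b * α) < Int.fract (c * α)) ∨
  (Int.fract (b * α) < Int.fract (c * α) ∧ Int.fract (c * α) < Int.fract (a * α)) ∨
  (Int.fract (c * α) < Int.fract (a * α) ∧ Int.fract (a * α) < Int.fract (b * α))

/-- The structure `(ℤ; +, C_α, C_β)`. -/
@[instance_reducible]
def str (α β : ℝ) : Lang.Structure ℤ where
  funMap {n} (f : Func n) v := match n, f, v with
    | _, .add, v => v 0 + v 1
  RelMap {n} (r : Rels n) v := match n, r, v with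
    | _, .first, v => cyc α (v 0) (v 1) (v 2)
    | _, .second, v => cyc β (v 0) (v 1) (v 2)

/-- The formula `φ(x; y)` has the independence property in the structure `M`: there are tuples
`a i` (`i ∈ ℕ`) and `b S` (`S ⊆ ℕ`) in `M` with `M ⊨ φ(a i; b S)` iff `i ∈ S`. -/
def HasIP {L : FirstOrder.Language} {m n : ℕ} (φ : L.Formula (Fin m ⊕ Fin n))
    (M : Type*) [L.Structure M] : Prop :=
  ∃ (a : ℕ → Fin m → M) (b : Set ℕ → Fin n → M),
    ∀ (i : ℕ) (S : Set ℕ), φ.Realize (Sum.elim (a i) (b S)) ↔ i ∈ S

/-- A theory is NIP if no formula has the independence property in a model of the theory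
(models in `Type w`; the main theorem holds for every `w`). -/
def IsNIP.{w, u, v} {L : FirstOrder.Language.{u, v}} (T : L.Theory) : Prop :=
  ∀ (M : Type w) [L.Structure M] [Nonempty M], M ⊨ T →
    ∀ (m n : ℕ) (φ : L.Formula (Fin m ⊕ Fin n)), ¬ HasIP φ M

end Pool.Agent.MP66c0d0
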