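import Mathlib

open MeasureTheory Filter Topology UnitAddTorus

namespace Pool.Agent.MP66c0d0

/-- The point `k θ` of the torus. -/
noncomputable def orb {d : Type*} (θ : d → ℝ) (k : ℕ) : UnitAddTorus d :=
  fun i => (((k : ℝ) * θ i : ℝ) : UnitAddCircle)

theorem mFourier_orb {d : Type*} [Fintype d] (θ : d → ℝ) (n : d → ℤ) (k : ℕ) :
    mFourier n (orb θ k) = (Complex.exp (2 * Real.pi * Complex.I * (∑ i, (n i : ℝ) * θ i : ℝ))) ^ k := by
  rw [← Complex.exp_nat_mul]
  simp only [mFourier, ContinuousMap.coe_mk, orb, fourier_coe_apply]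
  rw [← Complex.exp_sum]
  congr 1
  push_cast
  rw [Finset.mul_sum, Finset.mul_sum]
  refine Finset.sum_congr rfl fun i _ => ?_
  ring

theorem mFourier_add' {d : Type*} [Fintype d] (n : d → ℤ) (x y : UnitAddTorus d) :
    mFourier n (x + y) = mFourier n x * mFourier n y := by
  simp only [mFourier, ContinuousMap.coe_mk, Pi.add_apply, fourier_apply, smul_add,
    AddCircle.toCircle_add, Circle.coe_mul]
  rw [Finset.prod_mul_distrib]

section
variable {d : Type*}

/-- averages -/
noncomputable def avg (θ : d → ℝ) (N : ℕ) (g : C(UnitAddTorus d, ℂ)) : ℂ :=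
  (∑ k ∈ Finset.range N, g (orb θ k)) / N

theorem avg_add (θ : d → ℝ) (N : ℕ) (f g : C(UnitAddTorus d, ℂ)) :
    avg θ N (f + g) = avg θ N f + avg θ N g := by
  simp only [avg, ContinuousMap.add_apply, Finset.sum_add_distrib, add_div]

theorem avg_sub (θ : d → ℝ) (N : ℕ) (f g : C(UnitAddTorus d, ℂ)) :
    avg θ N (f - g) = avg θ N f - avg θ N g := by
  simp only [avg, ContinuousMap.sub_apply, Finset.sum_sub_distrib, sub_div]

theorem avg_smul (θ : d → ℝ) (N : ℕ) (c : ℂ) (g : C(UnitAddTorus d, ℂ)) :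
    avg θ N (c • g) = c * avg θ N g := by
  simp only [avg, ContinuousMap.smul_apply, smul_eq_mul, ← Finset.mul_sum, mul_div_assoc]

theorem norm_avg_le [Fintype d] (θ : d → ℝ) (N : ℕ) (g : C(UnitAddTorus d, ℂ)) :
    ‖avg θ N g‖ ≤ ‖g‖ := by
  rcases Nat.eq_zero_or_pos N with rfl | hN
  · simp [avg]
  · rw [avg, norm_div, div_le_iff₀ (by rw [Complex.norm_natCast]; exact_mod_cast hN)]
    calc ‖∑ k ∈ Finset.range N, g (orb θ k)‖ ≤ ∑ k ∈ Finset.range N, ‖g (orb θ k)‖ :=
          norm_sum_le _ _
      _ ≤ ∑ k ∈ Finset.range N, ‖g‖ := Finset.sum_le_sum fun k _ => g.norm_coe_le_norm _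
      _ = ‖g‖ * ‖(N : ℂ)‖ := by simp [mul_comm]

theorem tendsto_avg_pow {z : ℂ} (hz : ‖z‖ = 1) (hz1 : z ≠ 1) :
    Tendsto (fun N : ℕ => (∑ k ∈ Finset.range N, z ^ k) / N) atTop (𝓝 0) := by
  have hb : ∀ N : ℕ, ‖∑ k ∈ Finset.range N, z ^ k‖ ≤ 2 / ‖z - 1‖ := by
    intro N
    rw [geom_sum_eq hz1, norm_div]
    gcongr
    calc ‖z ^ N - 1‖ ≤ ‖z ^ N‖ + ‖(1 : ℂ)‖ := norm_sub_le _ _
      _ = 2 := by rw [norm_pow, hz]; norm_num
  have h0 : Tendsto (fun N : ℕ => (2 / ‖z - 1‖) / (N : ℝ)) atTop (𝓝 0) :=
    tendsto_const_div_atTop_nhds_zero_nat _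
  refine squeeze_zero_norm (fun N => ?_) h0
  rw [norm_div]
  simp only [Complex.norm_natCast]
  gcongr
  exact hb N

/-- **Kronecker's theorem** (density form). -/
theorem denseRange_orb [Fintype d] (θ : d → ℝ)
    (hθ : ∀ (m : d → ℤ) (k : ℤ), ∑ i, (m i : ℝ) * θ i = k → m = 0) :
    DenseRange (orb θ) := by
  classical
  let μ : Measure (UnitAddTorus d) := Measure.addHaarMeasure ⊤
  have hμ : IsFiniteMeasure μ := inferInstance
  -- the averages of a trigonometric polynomial converge to its integral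
  have key : ∀ g ∈ Submodule.span ℂ (Set.range (mFourier (d := d))),
      Tendsto (fun N => avg θ N g * μ.real Set.univ) atTop (𝓝 (∫ x, g x ∂μ)) := by
    intro g hg
    induction hg using Submodule.span_induction with
    | mem g hg =>
      obtain ⟨n, rfl⟩ := hg
      by_cases hn : n = 0
      · subst hn
        rw [mFourier_zero]
        have h1 : ∀ N : ℕ, 1 ≤ N → avg θ N (1 : C(UnitAddTorus d, ℂ)) = 1 := by
          intro N hN
          simp only [avg, ContinuousMap.one_apply, Finset.sum_const, Finset.card_range,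
            nsmul_eq_mul, mul_one]
          exact div_self (by exact_mod_cast (by omega : N ≠ 0))
        have h2 : ∫ x, (1 : C(UnitAddTorus d, ℂ)) x ∂μ = 1 * μ.real Set.univ := by
          simp
        rw [h2]
        apply Tendsto.mul_const
        refine tendsto_const_nhds.congr' ?_
        filter_upwards [eventually_ge_atTop 1] with N hN
        exact (h1 N hN).symm
      · set z : ℂ := Complex.exp (2 * Real.pi * Complex.I * (∑ i, (n i : ℝ) * θ i : ℝ)) with hz
        have hz1 : z ≠ 1 := by
          rw [hz, Ne, Complex.exp_eq_one_iff]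
          rintro ⟨k, hk⟩
          apply hn
          apply hθ n k
          have h2 : (2 * Real.pi * Complex.I : ℂ) ≠ 0 := by
            simp [Real.pi_ne_zero, Complex.I_ne_zero]
          have h3 : (2 * Real.pi * Complex.I : ℂ) * (∑ i, (n i : ℝ) * θ i : ℝ) =
              (2 * Real.pi * Complex.I : ℂ) * (k : ℂ) := by
            rw [hk]; ring
          have h4 := mul_left_cancel₀ h2 h3
          exact_mod_cast h4
        have hzn : ‖z‖ = 1 := by
          rw [hz, Complex.norm_exp]
          simp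
        have hint : ∫ x, mFourier n x ∂μ = 0 := by
          have h1 : ∫ x, mFourier n (orb θ 1 + x) ∂μ = ∫ x, mFourier n x ∂μ :=
            integral_add_left_eq_self (fun x => mFourier n x) (orb θ 1)
          have h2 : ∫ x, mFourier n (orb θ 1 + x) ∂μ = z * ∫ x, mFourier n x ∂μ := by
            rw [← integral_const_mul]
            congr 1
            ext x
            rw [mFourier_add', mFourier_orb, pow_one]
          rw [h1] at h2
          have h3 : (z - 1) * ∫ x, mFourier n x ∂μ = 0 := by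
            rw [sub_mul, one_mul, ← h2, sub_self]
          rcases mul_eq_zero.1 h3 with h | h
          · exact absurd (sub_eq_zero.1 h) hz1
          · exact h
        rw [hint]
        have h5 : ∀ N : ℕ, avg θ N (mFourier n) = (∑ k ∈ Finset.range N, z ^ k) / N := by
          intro N
          rw [avg]
          congr 1
          refine Finset.sum_congr rfl fun k _ => ?_
          rw [mFourier_orb]
        simp_rw [h5]
        simpa using (tendsto_avg_pow hzn hz1).mul_const ((μ.real Set.univ : ℝ) : ℂ)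
    | zero =>
      have : ∀ N, avg θ N (0 : C(UnitAddTorus d, ℂ)) = 0 := by
        intro N; simp [avg]
      simp [this]
    | add f g _ _ hf hg =>
      have h1 : ∫ x, (f + g) x ∂μ = ∫ x, f x ∂μ + ∫ x, g x ∂μ := by
        simp only [ContinuousMap.add_apply]
        exact integral_add (f.continuous.integrable_of_hasCompactSupport
          (HasCompactSupport.of_compactSpace _)) (g.continuous.integrable_of_hasCompactSupport
          (HasCompactSupport.of_compactSpace _))
      rw [h1]
      simp_rw [avg_add, add_mul]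
      exact hf.add hg
    | smul c f _ hf =>
      have h1 : ∫ x, (c • f) x ∂μ = c * ∫ x, f x ∂μ := by
        simp only [ContinuousMap.smul_apply, smul_eq_mul]
        exact integral_const_mul _ _
      rw [h1]
      simp_rw [avg_smul, mul_assoc]
      exact hf.const_mul c
  -- hence a continuous function which vanishes on the orbit has zero integral
  have key2 : ∀ f : C(UnitAddTorus d, ℂ), (∀ k, f (orb θ k) = 0) → ∫ x, f x ∂μ = 0 := by
    intro f hf
    have hcl : f ∈ (Submodule.span ℂ (Set.range (mFourier (d := d)))).topologicalClosure := by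
      rw [span_mFourier_closure_eq_top]; trivial
    have havg : ∀ N, avg θ N f = 0 := by
      intro N; simp [avg, hf]
    set V : ℝ := μ.real Set.univ with hV
    have hV0 : 0 ≤ V := measureReal_nonneg
    have hbound : ∀ ε > 0, ‖∫ x, f x ∂μ‖ ≤ 2 * ε * V := by
      intro ε hε
      rw [← SetLike.mem_coe, Submodule.topologicalClosure_coe, Metric.mem_closure_iff] at hcl
      obtain ⟨g, hg, hfg⟩ := hcl ε hε
      rw [dist_eq_norm] at hfg
      have h1 : Tendsto (fun N => ‖avg θ N g * V‖) atTop (𝓝 ‖∫ x, g x ∂μ‖) := (key g hg).norm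
      have h2 : ∀ N, ‖avg θ N g * V‖ ≤ ε * V := by
        intro N
        have h3 : avg θ N g = - avg θ N (f - g) := by
          rw [avg_sub, havg, zero_sub, neg_neg]
        rw [norm_mul, h3, norm_neg]
        have h4 : ‖(V : ℂ)‖ = V := by
          rw [Complex.norm_real, Real.norm_of_nonneg hV0]
        rw [h4]
        exact mul_le_mul_of_nonneg_right ((norm_avg_le θ N _).trans hfg.le) hV0
      have h5 : ‖∫ x, g x ∂μ‖ ≤ ε * V := le_of_tendsto' h1 h2
      have h6 : ‖∫ x, f x ∂μ - ∫ x, g x ∂μ‖ ≤ ε * V := by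
        rw [← integral_sub (f.continuous.integrable_of_hasCompactSupport
          (HasCompactSupport.of_compactSpace _)) (g.continuous.integrable_of_hasCompactSupport
          (HasCompactSupport.of_compactSpace _))]
        apply norm_integral_le_of_norm_le_const
        filter_upwards with x
        exact ((f - g).norm_coe_le_norm x).trans hfg.le
      calc ‖∫ x, f x ∂μ‖ = ‖(∫ x, f x ∂μ - ∫ x, g x ∂μ) + ∫ x, g x ∂μ‖ := by rw [sub_add_cancel]
        _ ≤ ‖∫ x, f x ∂μ - ∫ x, g x ∂μ‖ + ‖∫ x, g x ∂μ‖ := norm_add_le _ _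
        _ ≤ ε * V + ε * V := add_le_add h6 h5
        _ = 2 * ε * V := by ring
    by_contra hne
    have hpos : 0 < ‖∫ x, f x ∂μ‖ := norm_pos_iff.2 hne
    have hVpos : 0 < V := by
      by_contra hV'
      have hV'' : V = 0 := le_antisymm (not_lt.1 hV') hV0
      have := hbound 1 one_pos
      rw [hV'', mul_zero] at this
      linarith
    have := hbound (‖∫ x, f x ∂μ‖ / (4 * V)) (by positivity)
    have h7 : 2 * (‖∫ x, f x ∂μ‖ / (4 * V)) * V = ‖∫ x, f x ∂μ‖ / 2 := by
      field_simp
      ring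
    rw [h7] at this
    linarith
  -- conclusion by a bump function
  rw [denseRange_iff_closure_range]
  by_contra hcl
  obtain ⟨x0, hx0⟩ := (Set.ne_univ_iff_exists_notMem _).1 hcl
  obtain ⟨f, hf0, hf1, hf01⟩ := exists_continuous_zero_one_of_isClosed
    (isClosed_closure (s := Set.range (orb θ))) (isClosed_singleton (x := x0))
    (Set.disjoint_singleton_right.2 hx0)
  have hfc : ∫ x, (f x : ℂ) ∂μ = 0 := by
    have := key2 ⟨fun x => (f x : ℂ), by fun_prop⟩ (by
      intro k
      have : f (orb θ k) = 0 := hf0 (subset_closure ⟨k, rfl⟩)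
      simp [this])
    exact this
  have hfr : ∫ x, f x ∂μ = 0 := by
    rw [integral_complex_ofReal] at hfc
    exact_mod_cast hfc
  have hpos : 0 < ∫ x, f x ∂μ :=
    f.continuous.integral_pos_of_hasCompactSupport_nonneg_nonzero
      (HasCompactSupport.of_compactSpace _) (fun x => (hf01 x).1) (x := x0) (by
        have : f x0 = 1 := hf1 rfl
        rw [this]; exact one_ne_zero)
  exact absurd hfr hpos.ne'

/-- **Kronecker's theorem** for real intervals. -/
theorem kronecker [Fintype d] (θ : d → ℝ)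
    (hθ : ∀ (m : d → ℤ) (k : ℤ), ∑ i, (m i : ℝ) * θ i = k → m = 0)
    (l h : d → ℝ) (hlh : ∀ i, l i < h i) :
    ∃ k : ℤ, ∃ n : d → ℤ, ∀ i, l i < k * θ i + n i ∧ k * θ i + n i < h i := by
  have hopen : IsOpen (Set.pi Set.univ fun i : d =>
      ((fun x : ℝ => (x : UnitAddCircle)) '' Set.Ioo (l i) (h i))) := by
    apply isOpen_set_pi Set.finite_univ
    intro i _
    exact QuotientAddGroup.isOpenMap_coe _ isOpen_Ioo
  have hne : (Set.pi Set.univ fun i : d =>
      ((fun x : ℝ => (x : UnitAddCircle)) '' Set.Ioo (l i) (h i))).Nonempty := by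
    refine ⟨fun i => (((l i + h i) / 2 : ℝ) : UnitAddCircle), fun i _ => ?_⟩
    refine ⟨(l i + h i) / 2, ⟨?_, ?_⟩, rfl⟩ <;> linarith [hlh i]
  obtain ⟨_, hx, k, rfl⟩ := (denseRange_orb θ hθ).inter_open_nonempty _ hopen hne
  have hx' : ∀ i, ∃ t ∈ Set.Ioo (l i) (h i), ∃ n : ℤ, (k : ℝ) * θ i + n = t := by
    intro i
    obtain ⟨t, ht, hte⟩ := hx i (Set.mem_univ i)
    refine ⟨t, ht, ?_⟩
    simp only [orb] at hte
    have h1 : ((t - k * θ i : ℝ) : UnitAddCircle) = 0 := by
      rw [AddCircle.coe_sub, hte, sub_self]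
    rw [AddCircle.coe_eq_zero_iff] at h1
    obtain ⟨n, hn⟩ := h1
    refine ⟨n, ?_⟩
    rw [zsmul_eq_mul, mul_one] at hn
    rw [hn]; ring
  choose t ht n hn using hx'
  refine ⟨k, n, fun i => ?_⟩
  have := ht i
  rw [← hn i] at this
  exact_mod_cast this

end

end Pool.Agent.MP66c0d0
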