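import Mathlib
import Pool.Agent.MP66c0d0.Kronecker

namespace Pool.Agent.MP66c0d0

/-- The affine form `∑ m_j {x_j θ} + e θ + f`. -/
noncomputable def lin {ι : Type*} [Fintype ι] (θ : ℝ) (m : ι → ℤ) (e f : ℤ) (x : ι → ℤ) : ℝ :=
  ∑ j, (m j : ℝ) * Int.fract ((x j : ℝ) * θ) + e * θ + f

/-- `x` and `y` satisfy the same basic conditions of level `(n, N)`. -/
structure Rel {d ι : Type*} [Fintype ι] (θ : d → ℝ) (n N : ℕ) (x y : ι → ℤ) : Prop where
  sgn : ∀ (i : d) (m : ι → ℤ) (e f : ℤ), (∀ j, |m j| ≤ n) → |e| ≤ n →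
    (0 < lin (θ i) m e f x ↔ 0 < lin (θ i) m e f y)
  res : ∀ j, (N : ℤ) ∣ x j - y j
  fres : ∀ i j, (N : ℤ) ∣ ⌊(x j : ℝ) * θ i⌋ - ⌊(y j : ℝ) * θ i⌋

section
variable {d ι : Type*} [Fintype ι] {θ : d → ℝ} {n N : ℕ} {x y : ι → ℤ}

theorem Rel.symm (h : Rel θ n N x y) : Rel θ n N y x where
  sgn i m e f hm he := (h.sgn i m e f hm he).symm
  res j := by rw [← neg_sub, dvd_neg]; exact h.res j
  fres i j := by rw [← neg_sub, dvd_neg]; exact h.fres i j

theorem Rel.mono {n' N' : ℕ} (h : Rel θ n' N' x y) (hn : n ≤ n') (hN : N ∣ N') :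
    Rel θ n N x y where
  sgn i m e f hm he := h.sgn i m e f (fun j => (hm j).trans (by exact_mod_cast hn))
    (he.trans (by exact_mod_cast hn))
  res j := (Int.natCast_dvd_natCast.2 hN).trans (h.res j)
  fres i j := (Int.natCast_dvd_natCast.2 hN).trans (h.fres i j)

theorem Rel.reindex {κ : Type*} [Fintype κ] (σ : κ ≃ ι) (h : Rel θ n N x y) :
    Rel θ n N (x ∘ σ) (y ∘ σ) where
  sgn i m e f hm he := by
    have h1 : ∀ z : ι → ℤ, lin (θ i) m e f (z ∘ σ) = lin (θ i) (m ∘ σ.symm) e f z := by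
      intro z
      simp only [lin, Function.comp]
      congr 2
      rw [← Equiv.sum_comp σ]
      simp
    rw [h1, h1]
    exact h.sgn i _ e f (fun j => hm _) he
  res j := h.res _
  fres i j := h.fres i _

theorem lin_option (t : ℝ) (m : Option ι → ℤ) (e f : ℤ) (x0 : ℤ) (x : ι → ℤ) :
    lin t m e f (fun o : Option ι => o.elim x0 x) =
      (m none : ℝ) * Int.fract ((x0 : ℝ) * t) + lin t (fun j => m (some j)) e f x := by
  simp only [lin, Fintype.sum_option, Option.elim_none, Option.elim_some]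
  ring

theorem lin_eq (t : ℝ) (m : ι → ℤ) (e f : ℤ) (x : ι → ℤ) :
    lin t m e f x = ((∑ j, m j * x j + e : ℤ) : ℝ) * t - ((∑ j, m j * ⌊(x j : ℝ) * t⌋ : ℤ) : ℝ) + f := by
  simp only [lin, Int.fract]
  push_cast
  rw [add_mul, Finset.sum_mul]
  have : ∀ j, (m j : ℝ) * ((x j : ℝ) * t - ⌊(x j : ℝ) * t⌋) =
      (m j : ℝ) * (x j : ℝ) * t - (m j : ℝ) * ⌊(x j : ℝ) * t⌋ := fun j => by ring
  simp only [this, Finset.sum_sub_distrib]
  ring

theorem lin_comb (t : ℝ) (a b : ℤ) (m m' : ι → ℤ) (e e' f f' : ℤ) (x : ι → ℤ) :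
    lin t (fun j => a * m j - b * m' j) (a * e - b * e') (a * f - b * f') x =
      a * lin t m e f x - b * lin t m' e' f' x := by
  simp only [lin]
  push_cast
  have : ∀ j, ((a : ℝ) * (m j : ℝ) - (b : ℝ) * (m' j : ℝ)) * Int.fract ((x j : ℝ) * t) =
    (a : ℝ) * ((m j : ℝ) * Int.fract ((x j : ℝ) * t)) -
      (b : ℝ) * ((m' j : ℝ) * Int.fract ((x j : ℝ) * t)) := fun j => by ring
  simp only [this, Finset.sum_sub_distrib, ← Finset.mul_sum]
  ring

theorem lin_add_f (t : ℝ) (m : ι → ℤ) (e f g : ℤ) (x : ι → ℤ) :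
    lin t m e (f + g) x = lin t m e f x + g := by
  simp only [lin]; push_cast; ring

theorem abs_comb_le {n : ℕ} {a b c c' : ℤ} (ha : |a| ≤ n) (hb : |b| ≤ n) (hc : |c| ≤ n)
    (hc' : |c'| ≤ n) : |a * c - b * c'| ≤ ((2 * n * n + n : ℕ) : ℤ) := by
  have h1 : |a * c| ≤ n * n := by
    rw [abs_mul]; exact mul_le_mul ha hc (abs_nonneg _) (by positivity)
  have h2 : |b * c'| ≤ n * n := by
    rw [abs_mul]; exact mul_le_mul hb hc' (abs_nonneg _) (by positivity)
  have h3 := abs_sub (a * c) (b * c')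
  push_cast
  nlinarith [abs_nonneg (a * c), h1, h2, h3, Int.natCast_nonneg n]

/-- Linear independence of `1, θ i` over the rationals, in integral form. -/
def Indep {d : Type*} [Fintype d] (θ : d → ℝ) : Prop :=
  ∀ (m : d → ℤ) (k : ℤ), ∑ i, (m i : ℝ) * θ i = k → m = 0

theorem Indep.eq_zero [Fintype d] (hθ : Indep θ) (i : d) (a k : ℤ) (h : (a : ℝ) * θ i = k) :
    a = 0 := by
  classical
  have := hθ (Pi.single i a) k (by
    rw [← h]
    rw [Finset.sum_eq_single i]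
    · simp
    · intro j _ hj; simp [Pi.single_eq_of_ne hj]
    · simp)
  have h2 := congrFun this i
  simpa using h2

/-- Case A: `x0` is algebraic over `x` at level `n`. -/
theorem ext_algebraic
    (hxy : Rel θ (2 * n * n + n) (N * n.factorial) x y) (x0 : ℤ)
    (m0 : ℤ) (m : ι → ℤ) (e : ℤ) (hm0 : 0 < m0) (hm0n : m0 ≤ n) (hm : ∀ j, |m j| ≤ n)
    (he : |e| ≤ n) (h0 : m0 * x0 + ∑ j, m j * x j + e = 0) :
    ∃ y0 : ℤ, Rel θ n N (fun o : Option ι => o.elim x0 x) (fun o => o.elim y0 y) := by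
  have hnn : (n : ℤ) ≤ ((2 * n * n + n : ℕ) : ℤ) := by push_cast; nlinarith [Int.natCast_nonneg n]
  have hm0a : |m0| ≤ (n : ℤ) := by rw [abs_of_pos hm0]; exact hm0n
  -- `m0 * N` divides the modulus
  have hdvd : m0 * (N : ℤ) ∣ ((N * n.factorial : ℕ) : ℤ) := by
    have h1 : m0.toNat ∣ n.factorial := Nat.dvd_factorial (by omega) (by omega)
    have h2 : m0 ∣ (n.factorial : ℤ) := by
      have := Int.natCast_dvd_natCast.2 h1
      rwa [Int.toNat_of_nonneg hm0.le] at this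
    push_cast
    rw [mul_comm m0]
    exact mul_dvd_mul_left _ h2
  have hr : ∀ j, ∃ k, x j - y j = m0 * N * k := fun j => hdvd.trans (hxy.res j)
  choose r hr using hr
  have hfr : ∀ i j, ∃ k, ⌊(x j : ℝ) * θ i⌋ - ⌊(y j : ℝ) * θ i⌋ = m0 * N * k :=
    fun i j => hdvd.trans (hxy.fres i j)
  choose fr hfr using hfr
  have hSx : ∑ j, m j * x j = ∑ j, m j * y j + m0 * (N * ∑ j, m j * r j) := by
    rw [Finset.mul_sum, Finset.mul_sum, ← Finset.sum_add_distrib]
    refine Finset.sum_congr rfl fun j _ => ?_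
    have := hr j
    have h2 : x j = y j + m0 * N * r j := by linarith
    rw [h2]; ring
  set K : ℤ := ∑ j, m j * r j with hK
  set y0 : ℤ := x0 + N * K with hy0
  have hy0' : m0 * y0 + ∑ j, m j * y j + e = 0 := by
    rw [hy0]; linarith [h0, hSx]
  have hm0R : (0 : ℝ) < m0 := by exact_mod_cast hm0
  -- floor and fractional part of `y0 * θ i`
  set ff : d → ℤ := fun i => ∑ j, m j * ⌊(x j : ℝ) * θ i⌋ + m0 * ⌊(x0 : ℝ) * θ i⌋ with hff
  have hx0fr : ∀ i, (m0 : ℝ) * Int.fract ((x0 : ℝ) * θ i) = - lin (θ i) m e (ff i) x := by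
    intro i
    rw [lin_eq, hff, Int.fract]
    have : ((∑ j, m j * x j + e : ℤ) : ℝ) = - (m0 : ℝ) * x0 := by
      have : ∑ j, m j * x j + e = - m0 * x0 := by linarith
      rw [this]; push_cast; ring
    rw [this]
    push_cast
    ring
  have hy0fl : ∀ i, ⌊(y0 : ℝ) * θ i⌋ = ⌊(x0 : ℝ) * θ i⌋ + N * ∑ j, m j * fr i j ∧
      (m0 : ℝ) * Int.fract ((y0 : ℝ) * θ i) = - lin (θ i) m e (ff i) y := by
    intro i
    set w : ℝ := - lin (θ i) m e (ff i) y / m0 with hw
    have hw' : (m0 : ℝ) * w = - lin (θ i) m e (ff i) y := by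
      rw [hw]; field_simp
    have hw0 : 0 ≤ w := by
      have h1 : ¬ (0 < lin (θ i) m e (ff i) x) := by
        have := hx0fr i
        have h2 : 0 ≤ (m0 : ℝ) * Int.fract ((x0 : ℝ) * θ i) :=
          mul_nonneg hm0R.le (Int.fract_nonneg _)
        rw [this] at h2
        linarith
      rw [hxy.sgn i m e (ff i) (fun j => (hm j).trans hnn) (he.trans hnn)] at h1
      rw [hw]
      apply div_nonneg _ hm0R.le
      linarith
    have hw1 : w < 1 := by
      have h1 : 0 < lin (θ i) m e (ff i + m0) x := by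
        rw [lin_add_f]
        have := hx0fr i
        have h2 : (m0 : ℝ) * Int.fract ((x0 : ℝ) * θ i) < m0 * 1 :=
          mul_lt_mul_of_pos_left (Int.fract_lt_one _) hm0R
        rw [this] at h2
        linarith
      rw [hxy.sgn i m e _ (fun j => (hm j).trans hnn) (he.trans hnn), lin_add_f] at h1
      rw [hw, div_lt_one hm0R]
      linarith
    have hA : (y0 : ℝ) * θ i - w = ((⌊(x0 : ℝ) * θ i⌋ + N * ∑ j, m j * fr i j : ℤ) : ℝ) := by
      have h3 : (m0 : ℝ) * ((y0 : ℝ) * θ i - w) =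
          m0 * ((⌊(x0 : ℝ) * θ i⌋ + N * ∑ j, m j * fr i j : ℤ) : ℝ) := by
        rw [mul_sub, hw', lin_eq]
        have h4 : ((∑ j, m j * y j + e : ℤ) : ℝ) = - (m0 : ℝ) * y0 := by
          have : ∑ j, m j * y j + e = - m0 * y0 := by linarith
          rw [this]; push_cast; ring
        rw [h4]
        have h5 : ∑ j, m j * ⌊(x j : ℝ) * θ i⌋ =
            ∑ j, m j * ⌊(y j : ℝ) * θ i⌋ + m0 * (N * ∑ j, m j * fr i j) := by
          rw [Finset.mul_sum, Finset.mul_sum, ← Finset.sum_add_distrib]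
          refine Finset.sum_congr rfl fun j _ => ?_
          have := hfr i j
          have h2 : ⌊(x j : ℝ) * θ i⌋ = ⌊(y j : ℝ) * θ i⌋ + m0 * N * fr i j := by linarith
          rw [h2]; ring
        rw [hff]
        dsimp only
        rw [h5]
        push_cast
        ring
      exact mul_left_cancel₀ hm0R.ne' h3
    have hfl : ⌊(y0 : ℝ) * θ i⌋ = ⌊(x0 : ℝ) * θ i⌋ + N * ∑ j, m j * fr i j := by
      rw [Int.floor_eq_iff]
      constructor <;> linarith
    refine ⟨hfl, ?_⟩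
    rw [Int.fract, hfl, ← hA, ← hw']
    ring
  refine ⟨y0, ⟨?_, ?_, ?_⟩⟩
  · intro i m' e' f' hm' he'
    rw [lin_option, lin_option]
    have hx : (m0 : ℝ) * ((m' none : ℝ) * Int.fract ((x0 : ℝ) * θ i) +
        lin (θ i) (fun j => m' (some j)) e' f' x) =
        lin (θ i) (fun j => m0 * m' (some j) - m' none * m j) (m0 * e' - m' none * e)
          (m0 * f' - m' none * ff i) x := by
      rw [lin_comb, mul_add, mul_left_comm, hx0fr i]; ring
    have hy : (m0 : ℝ) * ((m' none : ℝ) * Int.fract ((y0 : ℝ) * θ i) +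
        lin (θ i) (fun j => m' (some j)) e' f' y) =
        lin (θ i) (fun j => m0 * m' (some j) - m' none * m j) (m0 * e' - m' none * e)
          (m0 * f' - m' none * ff i) y := by
      rw [lin_comb, mul_add, mul_left_comm, (hy0fl i).2]; ring
    rw [← mul_pos_iff_of_pos_left hm0R, hx, ← mul_pos_iff_of_pos_left hm0R
      (b := (m' none : ℝ) * Int.fract ((y0 : ℝ) * θ i) + _), hy]
    exact hxy.sgn i _ _ _ (fun j => abs_comb_le hm0a (hm' none) (hm' _) (hm j))
      (abs_comb_le hm0a (hm' none) he' he)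
  · rintro (_ | j)
    · simp only [Option.elim_none]
      exact ⟨-K, by rw [hy0]; ring⟩
    · simp only [Option.elim_some]
      exact (Int.natCast_dvd_natCast.2 (Dvd.intro _ rfl)).trans (hxy.res j)
  · rintro i (_ | j)
    · simp only [Option.elim_none]
      rw [(hy0fl i).1]
      exact ⟨- ∑ j, m j * fr i j, by ring⟩
    · simp only [Option.elim_some]
      exact (Int.natCast_dvd_natCast.2 (Dvd.intro _ rfl)).trans (hxy.fres i j)

/-- Separation of finitely many lower bounds from finitely many upper bounds. -/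
theorem exists_sep {Q : Type*} [Finite Q] [Nonempty Q] (L U : Q → ℝ) (h : ∀ q q', L q < U q') :
    ∃ l u : ℝ, l < u ∧ ∀ q, L q ≤ l ∧ u ≤ U q := by
  obtain ⟨a, ha⟩ := Finite.exists_max L
  obtain ⟨b, hb⟩ := Finite.exists_min U
  exact ⟨L a, U b, h a b, fun q => ⟨ha q, hb q⟩⟩

/-- Case B: `x0` is not algebraic over `x` at level `n`. -/
theorem ext_generic [Fintype d] (hθ : Indep θ) (hn : 1 ≤ n) (hN : 0 < N)
    (hxy : Rel θ (2 * n * n + n) (N * n.factorial) x y) (x0 : ℤ)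
    (h0 : ∀ (m0 : ℤ) (m : ι → ℤ) (e : ℤ), 0 < m0 → m0 ≤ n → (∀ j, |m j| ≤ n) → |e| ≤ n →
      m0 * x0 + ∑ j, m j * x j + e ≠ 0) :
    ∃ y0 : ℤ, Rel θ n N (fun o : Option ι => o.elim x0 x) (fun o => o.elim y0 y) := by
  classical
  have hnn : (n : ℤ) ≤ ((2 * n * n + n : ℕ) : ℤ) := by push_cast; nlinarith [Int.natCast_nonneg n]
  -- no threshold is hit by `x0`
  have hne : ∀ (i : d) (m0 : ℤ) (m : ι → ℤ) (e f : ℤ), 0 < m0 → m0 ≤ n → (∀ j, |m j| ≤ n) →
      |e| ≤ n → (m0 : ℝ) * Int.fract ((x0 : ℝ) * θ i) + lin (θ i) m e f x ≠ 0 := by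
    intro i m0 m e f hm0 hm0n hm he hz
    apply h0 m0 m e hm0 hm0n hm he
    apply hθ.eq_zero i _ (m0 * ⌊(x0 : ℝ) * θ i⌋ + ∑ j, m j * ⌊(x j : ℝ) * θ i⌋ - f)
    rw [lin_eq, Int.fract] at hz
    push_cast at hz ⊢
    linarith
  -- the index set of thresholds
  let Q : Type _ := {q : ℤ × (ι → ℤ) × ℤ // (0 < q.1 ∧ q.1 ≤ n) ∧ (∀ j, |q.2.1 j| ≤ n) ∧ |q.2.2| ≤ n}
  have hQfin : Finite Q := by
    have h1 : Set.Finite {q : ℤ × (ι → ℤ) × ℤ | (0 < q.1 ∧ q.1 ≤ n) ∧
        (∀ j, |q.2.1 j| ≤ n) ∧ |q.2.2| ≤ n} := by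
      have h2 : Set.Finite ((Set.Icc (0:ℤ) n) ×ˢ
          ((Set.pi Set.univ fun _ : ι => Set.Icc (-n : ℤ) n) ×ˢ (Set.Icc (-n : ℤ) n))) :=
        (Set.finite_Icc _ _).prod ((Set.Finite.pi' fun _ => Set.finite_Icc _ _).subset (by
          intro f hf i; exact hf i (Set.mem_univ i)) |>.prod (Set.finite_Icc _ _))
      refine h2.subset ?_
      rintro ⟨a, b, c⟩ ⟨⟨h1, h2⟩, h3, h4⟩
      exact ⟨⟨h1.le, h2⟩, ⟨fun j _ => abs_le.1 (h3 j), abs_le.1 h4⟩⟩
    exact h1.to_subtype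
  let q0 : Q := ⟨(1, fun _ => 0, 0), ⟨by norm_num, by show (1 : ℤ) ≤ n; exact_mod_cast hn⟩, by simp, by simp⟩
  have hQne : Nonempty Q := ⟨q0⟩
  -- the critical integer for each threshold
  let fq : d → Q → ℤ := fun i q =>
    ⌊-((q.1.1 : ℝ) * Int.fract ((x0 : ℝ) * θ i) + lin (θ i) q.1.2.1 q.1.2.2 0 x)⌋ + 1
  have hfq1 : ∀ i q, 0 < (q.1.1 : ℝ) * Int.fract ((x0 : ℝ) * θ i) +
      lin (θ i) q.1.2.1 q.1.2.2 (fq i q) x := by
    intro i q
    have := Int.lt_floor_add_one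
      (-((q.1.1 : ℝ) * Int.fract ((x0 : ℝ) * θ i) + lin (θ i) q.1.2.1 q.1.2.2 0 x))
    have h2 := lin_add_f (θ i) q.1.2.1 q.1.2.2 0 (fq i q) x
    rw [zero_add] at h2
    rw [h2]
    simp only [fq]
    push_cast
    linarith
  have hfq2 : ∀ i q, (q.1.1 : ℝ) * Int.fract ((x0 : ℝ) * θ i) +
      lin (θ i) q.1.2.1 q.1.2.2 (fq i q - 1) x < 0 := by
    intro i q
    have := Int.floor_le
      (-((q.1.1 : ℝ) * Int.fract ((x0 : ℝ) * θ i) + lin (θ i) q.1.2.1 q.1.2.2 0 x))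
    have h2 := lin_add_f (θ i) q.1.2.1 q.1.2.2 0 (fq i q - 1) x
    rw [zero_add] at h2
    have h3 : (q.1.1 : ℝ) * Int.fract ((x0 : ℝ) * θ i) +
      lin (θ i) q.1.2.1 q.1.2.2 (fq i q - 1) x ≤ 0 := by
      rw [h2]
      simp only [fq]
      push_cast
      linarith
    exact lt_of_le_of_ne h3 (hne i _ _ _ _ q.2.1.1 q.2.1.2 q.2.2.1 q.2.2.2)
  let L : d → Q → ℝ := fun i q => -(lin (θ i) q.1.2.1 q.1.2.2 (fq i q) y) / q.1.1
  let U : d → Q → ℝ := fun i q => -(lin (θ i) q.1.2.1 q.1.2.2 (fq i q - 1) y) / q.1.1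
  have hLU : ∀ i q q', L i q < U i q' := by
    intro i q q'
    have hq0 : (0 : ℝ) < q.1.1 := by exact_mod_cast q.2.1.1
    have hq0' : (0 : ℝ) < q'.1.1 := by exact_mod_cast q'.2.1.1
    have hqa : |q.1.1| ≤ (n : ℤ) := by rw [abs_of_pos q.2.1.1]; exact q.2.1.2
    have hqa' : |q'.1.1| ≤ (n : ℤ) := by rw [abs_of_pos q'.2.1.1]; exact q'.2.1.2
    have h1 := hxy.sgn i (fun j => q'.1.1 * q.1.2.1 j - q.1.1 * q'.1.2.1 j)
      (q'.1.1 * q.1.2.2 - q.1.1 * q'.1.2.2) (q'.1.1 * fq i q - q.1.1 * (fq i q' - 1))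
      (fun j => abs_comb_le hqa' hqa (q.2.2.1 j) (q'.2.2.1 j))
      (abs_comb_le hqa' hqa q.2.2.2 q'.2.2.2)
    rw [lin_comb, lin_comb] at h1
    have h2 := hfq1 i q
    have h3 := hfq2 i q'
    have h4 : 0 < (q'.1.1 : ℝ) * lin (θ i) q.1.2.1 q.1.2.2 (fq i q) x -
        q.1.1 * lin (θ i) q'.1.2.1 q'.1.2.2 (fq i q' - 1) x := by
      have h5 := mul_pos hq0' h2
      have h6 := mul_neg_of_pos_of_neg hq0 h3
      nlinarith
    have h5 := h1.1 h4
    simp only [L, U]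
    rw [div_lt_div_iff₀ hq0 hq0']
    nlinarith
  have hsep : ∀ i, ∃ l u : ℝ, l < u ∧ ∀ q, L i q ≤ l ∧ u ≤ U i q :=
    fun i => exists_sep (L i) (U i) (hLU i)
  choose l u hlu hLU' using hsep
  -- the interval is inside `[0, 1]`
  have hl0 : ∀ i, 0 ≤ l i ∧ u i ≤ 1 := by
    intro i
    have h1 := hfq1 i q0
    have h2 := hfq2 i q0
    have h3 : ∀ f : ℤ, ∀ z : ι → ℤ, lin (θ i) (fun _ => 0) 0 f z = f := by
      intro f z; simp [lin]
    have h4 := Int.fract_nonneg ((x0 : ℝ) * θ i)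
    have h5 := Int.fract_lt_one ((x0 : ℝ) * θ i)
    simp only [q0, h3, Int.cast_one, one_mul] at h1 h2
    have h6 : fq i q0 = 0 := by
      have h7 : (-1 : ℝ) < (fq i q0 : ℝ) := by linarith
      have h8 : ((fq i q0 : ℤ) : ℝ) < 1 := by push_cast at h2; linarith
      have h9 : (-1 : ℤ) < fq i q0 := by exact_mod_cast h7
      have h10 : fq i q0 < (1 : ℤ) := by exact_mod_cast h8
      omega
    have h7 := hLU' i q0
    simp only [L, U, q0, h3] at h7
    simp only [q0] at h6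
    rw [h6] at h7
    constructor
    · simpa using h7.1
    · simpa using h7.2
  have hNR : (0 : ℝ) < N := by exact_mod_cast hN
  obtain ⟨k, nn, hk⟩ := kronecker θ hθ (fun i => (l i - Int.fract ((x0 : ℝ) * θ i)) / N)
    (fun i => (u i - Int.fract ((x0 : ℝ) * θ i)) / N) (fun i => by
      apply div_lt_div_of_pos_right _ hNR
      linarith [hlu i])
  set y0 : ℤ := x0 + N * k with hy0
  have hw : ∀ i, ∃ w : ℝ, l i < w ∧ w < u i ∧
      (y0 : ℝ) * θ i = w + ((⌊(x0 : ℝ) * θ i⌋ - N * nn i : ℤ) : ℝ) := by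
    intro i
    refine ⟨N * (k * θ i + nn i) + Int.fract ((x0 : ℝ) * θ i), ?_, ?_, ?_⟩
    · have := (hk i).1
      rw [div_lt_iff₀ hNR] at this
      linarith
    · have := (hk i).2
      rw [lt_div_iff₀ hNR] at this
      linarith
    · rw [hy0, Int.fract]; push_cast; ring
  choose w hwl hwu hw using hw
  have hfl : ∀ i, ⌊(y0 : ℝ) * θ i⌋ = ⌊(x0 : ℝ) * θ i⌋ - N * nn i := by
    intro i
    rw [Int.floor_eq_iff, hw i]
    constructor
    · linarith [hwl i, (hl0 i).1]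
    · linarith [hwu i, (hl0 i).2]
  have hfr : ∀ i, Int.fract ((y0 : ℝ) * θ i) = w i := by
    intro i
    rw [Int.fract, hfl i, hw i]; ring
  -- comparison of signs for positive leading coefficient
  have hpos : ∀ (i : d) (q : Q) (f : ℤ),
      (0 < (q.1.1 : ℝ) * Int.fract ((x0 : ℝ) * θ i) + lin (θ i) q.1.2.1 q.1.2.2 f x ∧
       0 < (q.1.1 : ℝ) * Int.fract ((y0 : ℝ) * θ i) + lin (θ i) q.1.2.1 q.1.2.2 f y) ∨
      ((q.1.1 : ℝ) * Int.fract ((x0 : ℝ) * θ i) + lin (θ i) q.1.2.1 q.1.2.2 f x < 0 ∧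
       (q.1.1 : ℝ) * Int.fract ((y0 : ℝ) * θ i) + lin (θ i) q.1.2.1 q.1.2.2 f y < 0) := by
    intro i q f
    have hq0 : (0 : ℝ) < q.1.1 := by exact_mod_cast q.2.1.1
    rcases le_or_gt (fq i q) f with hf | hf
    · left
      have h1 := hfq1 i q
      have h2 : L i q < w i := lt_of_le_of_lt (hLU' i q).1 (hwl i)
      simp only [L] at h2
      rw [div_lt_iff₀ hq0] at h2
      have hx := lin_add_f (θ i) q.1.2.1 q.1.2.2 (fq i q) (f - fq i q) x
      have hy := lin_add_f (θ i) q.1.2.1 q.1.2.2 (fq i q) (f - fq i q) y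
      rw [add_sub_cancel] at hx hy
      have h3 : (0 : ℝ) ≤ ((f - fq i q : ℤ) : ℝ) := by
        have : 0 ≤ f - fq i q := by linarith
        exact_mod_cast this
      rw [hx, hy, hfr i]
      constructor
      · linarith
      · linarith
    · right
      have h1 := hfq2 i q
      have h2 : w i < U i q := lt_of_lt_of_le (hwu i) (hLU' i q).2
      simp only [U] at h2
      rw [lt_div_iff₀ hq0] at h2
      have hx := lin_add_f (θ i) q.1.2.1 q.1.2.2 (fq i q - 1) (f - (fq i q - 1)) x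
      have hy := lin_add_f (θ i) q.1.2.1 q.1.2.2 (fq i q - 1) (f - (fq i q - 1)) y
      rw [add_sub_cancel] at hx hy
      have h3 : ((f - (fq i q - 1) : ℤ) : ℝ) ≤ 0 := by
        have : f - (fq i q - 1) ≤ 0 := by omega
        exact_mod_cast this
      rw [hx, hy, hfr i]
      constructor
      · linarith
      · linarith
  refine ⟨y0, ⟨?_, ?_, ?_⟩⟩
  · intro i m' e' f' hm' he'
    rw [lin_option, lin_option]
    rcases lt_trichotomy (m' none) 0 with hneg | hzero | hp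
    · have h1 := hpos i ⟨(- m' none, fun j => - m' (some j), - e'),
        ⟨by omega, by have := abs_le.1 (hm' none); omega⟩,
        fun j => by rw [abs_neg]; exact hm' _, by rw [abs_neg]; exact he'⟩ (-f')
      have h2 : ∀ z : ι → ℤ, lin (θ i) (fun j => - m' (some j)) (-e') (-f') z =
          - lin (θ i) (fun j => m' (some j)) e' f' z := by
        intro z
        simp only [lin]
        push_cast
        simp only [neg_mul, Finset.sum_neg_distrib]
        ring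
      simp only [h2] at h1
      push_cast at h1
      constructor
      · intro h
        rcases h1 with ⟨h3, h4⟩ | ⟨h3, h4⟩
        · exfalso; linarith
        · linarith
      · intro h
        rcases h1 with ⟨h3, h4⟩ | ⟨h3, h4⟩
        · exfalso; linarith
        · linarith
    · rw [hzero]
      simp only [Int.cast_zero, zero_mul, zero_add]
      exact hxy.sgn i _ _ _ (fun j => (hm' _).trans hnn) (he'.trans hnn)
    · have h1 := hpos i ⟨(m' none, fun j => m' (some j), e'),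
        ⟨hp, (abs_le.1 (hm' none)).2⟩, fun j => hm' _, he'⟩ f'
      simp only at h1
      constructor
      · intro h
        rcases h1 with ⟨h3, h4⟩ | ⟨h3, h4⟩
        · exact h4
        · exfalso; linarith
      · intro h
        rcases h1 with ⟨h3, h4⟩ | ⟨h3, h4⟩
        · exact h3
        · exfalso; linarith
  · rintro (_ | j)
    · simp only [Option.elim_none]
      exact ⟨-k, by rw [hy0]; ring⟩
    · simp only [Option.elim_some]
      exact (Int.natCast_dvd_natCast.2 (Dvd.intro _ rfl)).trans (hxy.res j)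
  · rintro i (_ | j)
    · simp only [Option.elim_none]
      rw [hfl i]
      exact ⟨nn i, by ring⟩
    · simp only [Option.elim_some]
      exact (Int.natCast_dvd_natCast.2 (Dvd.intro _ rfl)).trans (hxy.fres i j)

/-- The extension property. -/
theorem ext [Fintype d] (hθ : Indep θ) (hn : 1 ≤ n) (hN : 0 < N)
    (hxy : Rel θ (2 * n * n + n) (N * n.factorial) x y) (x0 : ℤ) :
    ∃ y0 : ℤ, Rel θ n N (fun o : Option ι => o.elim x0 x) (fun o => o.elim y0 y) := by
  by_cases h : ∃ (m0 : ℤ) (m : ι → ℤ) (e : ℤ), 0 < m0 ∧ m0 ≤ n ∧ (∀ j, |m j| ≤ n) ∧ |e| ≤ n ∧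
      m0 * x0 + ∑ j, m j * x j + e = 0
  · obtain ⟨m0, m, e, h1, h2, h3, h4, h5⟩ := h
    exact ext_algebraic hxy x0 m0 m e h1 h2 h3 h4 h5
  · push Not at h
    exact ext_generic hθ hn hN hxy x0 (fun m0 m e h1 h2 h3 h4 => h m0 m e h1 h2 h3 h4)

end

end Pool.Agent.MP66c0d0
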