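import Mathlib
import Pool.Agent.MP66c0d0.Ext
import Pool.Agent.MP66c0d0.Defs

open FirstOrder

namespace Pool.Agent.MP66c0d0

section
variable {d ι : Type*} [Fintype ι] {θ : d → ℝ}

/-- `γ` is a rational affine function of some `θ i`. -/
def Ctrl (θ : d → ℝ) (γ : ℝ) : Prop :=
  ∃ (i : d) (r : ℕ) (p q : ℤ), 0 < r ∧ (r : ℝ) * γ = p * θ i + q

theorem lin_neg (t : ℝ) (m : ι → ℤ) (e f : ℤ) (x : ι → ℤ) :
    lin t (fun j => - m j) (-e) (-f) x = - lin t m e f x := by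
  simp only [lin]
  push_cast
  simp only [neg_mul, Finset.sum_neg_distrib]
  ring

theorem fract_transfer {γ : ℝ} {i : d} {r : ℕ} {p q : ℤ} (hr : 0 < r)
    (hγ : (r : ℝ) * γ = p * θ i + q) {n : ℕ} {x y : ι → ℤ} (h : Rel θ n r x y) (c : ι → ℤ)
    (hc : ∀ j, |p * c j| ≤ n) :
    ∃ f : ℤ, (r : ℝ) * Int.fract (((∑ j, c j * x j : ℤ) : ℝ) * γ) =
        lin (θ i) (fun j => p * c j) 0 f x ∧
      (r : ℝ) * Int.fract (((∑ j, c j * y j : ℤ) : ℝ) * γ) =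
        lin (θ i) (fun j => p * c j) 0 f y := by
  have hrR : (0 : ℝ) < r := by exact_mod_cast hr
  -- integral part
  let I : (ι → ℤ) → ℤ := fun z => ∑ j, c j * (p * ⌊(z j : ℝ) * θ i⌋ + q * z j)
  have hI : ∀ z : ι → ℤ, ∀ f : ℤ, (r : ℝ) * (((∑ j, c j * z j : ℤ) : ℝ) * γ) =
      lin (θ i) (fun j => p * c j) 0 f z + I z - f := by
    intro z f
    have h1 : (r : ℝ) * (((∑ j, c j * z j : ℤ) : ℝ) * γ) =
        ((∑ j, c j * z j : ℤ) : ℝ) * (p * θ i + q) := by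
      rw [← hγ]; ring
    rw [h1, lin_eq]
    simp only [I]
    push_cast
    have h2 : (∑ j, (c j : ℝ) * ((p : ℝ) * (⌊(z j : ℝ) * θ i⌋ : ℝ) + (q : ℝ) * (z j : ℝ))) =
        (∑ j, (p : ℝ) * (c j : ℝ) * (⌊(z j : ℝ) * θ i⌋ : ℝ)) +
          q * ∑ j, (c j : ℝ) * (z j : ℝ) := by
      rw [Finset.mul_sum, ← Finset.sum_add_distrib]
      refine Finset.sum_congr rfl fun j _ => ?_
      ring
    have h3 : (∑ j, (p : ℝ) * (c j : ℝ) * (z j : ℝ)) = p * ∑ j, (c j : ℝ) * (z j : ℝ) := by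
      rw [Finset.mul_sum]
      refine Finset.sum_congr rfl fun j _ => ?_
      ring
    rw [h2, h3]
    ring
  have hdvd : (r : ℤ) ∣ I x - I y := by
    simp only [I]
    rw [← Finset.sum_sub_distrib]
    refine Finset.dvd_sum fun j _ => ?_
    have : c j * (p * ⌊(x j : ℝ) * θ i⌋ + q * x j) - c j * (p * ⌊(y j : ℝ) * θ i⌋ + q * y j) =
        c j * (p * (⌊(x j : ℝ) * θ i⌋ - ⌊(y j : ℝ) * θ i⌋) + q * (x j - y j)) := by ring
    rw [this]
    exact Dvd.dvd.mul_left (dvd_add (Dvd.dvd.mul_left (h.fres i j) _)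
      (Dvd.dvd.mul_left (h.res j) _)) _
  obtain ⟨s, hs⟩ := hdvd
  set f : ℤ := I x - r * ⌊((∑ j, c j * x j : ℤ) : ℝ) * γ⌋ with hf
  have hx : (r : ℝ) * Int.fract (((∑ j, c j * x j : ℤ) : ℝ) * γ) =
        lin (θ i) (fun j => p * c j) 0 f x := by
    rw [Int.fract, mul_sub, hI x f, hf]
    push_cast
    ring
  refine ⟨f, hx, ?_⟩
  have hnc : ∀ j, |-(p * c j)| ≤ (n : ℤ) := fun j => by rw [abs_neg]; exact hc j
  have hy0 : 0 ≤ lin (θ i) (fun j => p * c j) 0 f y := by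
    have h1 : 0 ≤ (r : ℝ) * Int.fract (((∑ j, c j * x j : ℤ) : ℝ) * γ) :=
      mul_nonneg hrR.le (Int.fract_nonneg _)
    rw [hx] at h1
    have h2 : ¬ (0 < lin (θ i) (fun j => -(p * c j)) (-0) (-f) x) := by
      rw [lin_neg]; linarith
    rw [h.sgn i _ _ _ hnc (by simp), lin_neg] at h2
    linarith
  have hy1 : lin (θ i) (fun j => p * c j) 0 f y < r := by
    have h1 : (r : ℝ) * Int.fract (((∑ j, c j * x j : ℤ) : ℝ) * γ) < r * 1 :=
      mul_lt_mul_of_pos_left (Int.fract_lt_one _) hrR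
    rw [hx] at h1
    have h2 : 0 < lin (θ i) (fun j => -(p * c j)) (-0) (-f + r) x := by
      rw [lin_add_f, lin_neg]; push_cast; linarith
    rw [h.sgn i _ _ _ hnc (by simp), lin_add_f, lin_neg] at h2
    push_cast at h2
    linarith
  have hfl : ⌊((∑ j, c j * y j : ℤ) : ℝ) * γ⌋ = ⌊((∑ j, c j * x j : ℤ) : ℝ) * γ⌋ - s := by
    have h1 : (r : ℝ) * (((∑ j, c j * y j : ℤ) : ℝ) * γ) =
        lin (θ i) (fun j => p * c j) 0 f y +
          r * ((⌊((∑ j, c j * x j : ℤ) : ℝ) * γ⌋ - s : ℤ) : ℝ) := by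
      rw [hI y f]
      have h2 : (I y : ℝ) = I x - r * s := by
        have : I y = I x - r * s := by linarith
        exact_mod_cast this
      have h3 : (f : ℝ) = I x - r * ⌊((∑ j, c j * x j : ℤ) : ℝ) * γ⌋ := by
        rw [hf]; push_cast; ring
      rw [h2, h3]
      push_cast
      ring
    rw [Int.floor_eq_iff]
    constructor
    · have h4 : (r : ℝ) * ((⌊((∑ j, c j * x j : ℤ) : ℝ) * γ⌋ - s : ℤ) : ℝ) ≤
          r * (((∑ j, c j * y j : ℤ) : ℝ) * γ) := by rw [h1]; linarith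
      exact le_of_mul_le_mul_left h4 hrR
    · have h4 : (r : ℝ) * (((∑ j, c j * y j : ℤ) : ℝ) * γ) <
          r * (((⌊((∑ j, c j * x j : ℤ) : ℝ) * γ⌋ - s : ℤ) : ℝ) + 1) := by rw [h1]; linarith
      exact lt_of_mul_lt_mul_left h4 hrR.le
  rw [Int.fract, hfl, mul_sub, hI y f, hf]
  push_cast
  have h2 : (I y : ℝ) = I x - r * s := by
    have : I y = I x - r * s := by linarith
    exact_mod_cast this
  rw [h2]
  ring

/-- Comparisons of two terms in the order of `C_γ` are controlled. -/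
theorem lt_ctrl {γ : ℝ} {i : d} {r : ℕ} {p q : ℤ} (hr : 0 < r)
    (hγ : (r : ℝ) * γ = p * θ i + q) {n : ℕ} {x y : ι → ℤ} (h : Rel θ n r x y) (c c' : ι → ℤ)
    (hc : ∀ j, |p * c j| ≤ n) (hc' : ∀ j, |p * c' j| ≤ n)
    (hcc : ∀ j, |p * c' j - p * c j| ≤ n) :
    (Int.fract (((∑ j, c j * x j : ℤ) : ℝ) * γ) < Int.fract (((∑ j, c' j * x j : ℤ) : ℝ) * γ) ↔
      Int.fract (((∑ j, c j * y j : ℤ) : ℝ) * γ) < Int.fract (((∑ j, c' j * y j : ℤ) : ℝ) * γ)) := by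
  have hrR : (0 : ℝ) < r := by exact_mod_cast hr
  obtain ⟨f, hf1, hf2⟩ := fract_transfer hr hγ h c hc
  obtain ⟨f', hf1', hf2'⟩ := fract_transfer hr hγ h c' hc'
  have h1 : ∀ z : ι → ℤ, lin (θ i) (fun j => 1 * (p * c' j) - 1 * (p * c j)) (1 * 0 - 1 * 0)
      (1 * f' - 1 * f) z = lin (θ i) (fun j => p * c' j) 0 f' z -
        lin (θ i) (fun j => p * c j) 0 f z := by
    intro z
    rw [lin_comb]
    push_cast
    ring
  have h2 := h.sgn i (fun j => 1 * (p * c' j) - 1 * (p * c j)) (1 * 0 - 1 * 0) (1 * f' - 1 * f)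
    (by simpa using hcc) (by simp)
  rw [h1, h1, ← hf1, ← hf1', ← hf2, ← hf2', sub_pos, sub_pos] at h2
  constructor
  · intro h3
    exact lt_of_mul_lt_mul_left (h2.1 (mul_lt_mul_of_pos_left h3 hrR)) hrR.le
  · intro h3
    exact lt_of_mul_lt_mul_left (h2.2 (mul_lt_mul_of_pos_left h3 hrR)) hrR.le

theorem exists_bound {κ : Type*} [Fintype κ] (c : κ → ι → ℤ) (p : ℤ) :
    ∃ n : ℕ, ∀ k l, (∀ j, |p * c k j| ≤ n) ∧ (∀ j, |p * c l j - p * c k j| ≤ n) := by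
  classical
  refine ⟨2 * ∑ k, ∑ j, (p * c k j).natAbs, fun k l => ?_⟩
  have h1 : ∀ k j, |p * c k j| ≤ ((∑ k, ∑ j, (p * c k j).natAbs : ℕ) : ℤ) := by
    intro k j
    rw [← Int.natCast_natAbs]
    exact_mod_cast (Finset.single_le_sum (f := fun j => (p * c k j).natAbs)
      (fun _ _ => Nat.zero_le _) (Finset.mem_univ j)).trans
      (Finset.single_le_sum (f := fun k => ∑ j, (p * c k j).natAbs)
      (fun _ _ => Nat.zero_le _) (Finset.mem_univ k))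
  constructor
  · intro j
    have := h1 k j
    have h2 := abs_nonneg (p * c k j)
    push_cast at this ⊢
    linarith
  · intro j
    have h2 := h1 k j
    have h3 := h1 l j
    have h4 := abs_sub (p * c l j) (p * c k j)
    push_cast at h2 h3 ⊢
    linarith

theorem cyc_ctrl {γ : ℝ} (hγ : Ctrl θ γ) (c : Fin 3 → ι → ℤ) :
    ∃ n N : ℕ, 0 < N ∧ ∀ x y : ι → ℤ, Rel θ n N x y →
      (cyc γ (∑ j, c 0 j * x j) (∑ j, c 1 j * x j) (∑ j, c 2 j * x j) ↔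
       cyc γ (∑ j, c 0 j * y j) (∑ j, c 1 j * y j) (∑ j, c 2 j * y j)) := by
  obtain ⟨i, r, p, q, hr, hγ⟩ := hγ
  obtain ⟨n, hn⟩ := exists_bound c p
  refine ⟨n, r, hr, fun x y h => ?_⟩
  have key : ∀ k l : Fin 3, _ := fun k l =>
    lt_ctrl hr hγ h (c k) (c l) (hn k l).1 (hn l k).1 (hn k l).2
  simp only [cyc]
  rw [key 0 1, key 1 2, key 2 0]

end

end Pool.Agent.MP66c0d0
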