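import Mathlib
import Pool.Agent.MP66c0d0.Formulas

open FirstOrder

namespace Pool.Agent.MP66c0d0

section
variable {α β : ℝ} {d : Type*} [Fintype d] {θ : d → ℝ}

/-- Every term is an integer combination of its variables. -/
theorem term_lin {κ : Type*} [Fintype κ] (t : Lang.Term κ) :
    ∃ c : κ → ℤ, ∀ v : κ → ℤ, @Language.Term.realize Lang ℤ (str α β) κ v t = ∑ j, c j * v j := by
  classical
  induction t with
  | var k =>
    refine ⟨Pi.single k 1, fun v => ?_⟩
    rw [Finset.sum_eq_single k]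
    · simp [Language.Term.realize]
    · intro j _ hj; simp [Pi.single_eq_of_ne hj]
    · simp
  | @func l f ts ih =>
    match l, f, ts, ih with
    | _, Func.add, ts, ih =>
      choose c hc using ih
      refine ⟨fun j => c 0 j + c 1 j, fun v => ?_⟩
      simp only [add_mul, Finset.sum_add_distrib, ← hc]
      rfl

/-- The index bijection used for quantifiers. -/
def sigma (ι : Type*) (l : ℕ) : ι ⊕ Fin (l + 1) ≃ Option (ι ⊕ Fin l) where
  toFun := Sum.elim (fun i => some (Sum.inl i))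
    (fun k => Fin.lastCases (motive := fun _ => Option (ι ⊕ Fin l)) none
      (fun j => some (Sum.inr j)) k)
  invFun := fun o => o.elim (Sum.inr (Fin.last l)) (Sum.map id Fin.castSucc)
  left_inv := by
    rintro (i | k)
    · simp
    · refine Fin.lastCases ?_ (fun j => ?_) k
      · simp
      · simp
  right_inv := by
    rintro (_ | (i | j))
    · simp
    · simp
    · simp

theorem sigma_comp {ι : Type*} {l : ℕ} (v : ι → ℤ) (xs : Fin l → ℤ) (x0 : ℤ) :
    (fun o : Option (ι ⊕ Fin l) => o.elim x0 (Sum.elim v xs)) ∘ sigma ι l =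
      Sum.elim v (Fin.snoc xs x0 : Fin (l + 1) → ℤ) := by
  funext z
  rcases z with i | k
  · simp [sigma]
  · refine Fin.lastCases ?_ (fun j => ?_) k
    · simp [sigma]
    · simp [sigma]

/-- Every formula is invariant under a relation `Rel θ n N`. -/
theorem formula_inv (hθ : Indep θ) [Nonempty d] (hα : Ctrl θ α) (hβ : Ctrl θ β)
    {ι : Type*} [Fintype ι] {l : ℕ} (φ : Lang.BoundedFormula ι l) :
    ∃ n N : ℕ, 0 < N ∧ ∀ (v v' : ι → ℤ) (xs xs' : Fin l → ℤ),
      Rel θ n N (Sum.elim v xs) (Sum.elim v' xs') →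
      (@Language.BoundedFormula.Realize Lang ℤ (str α β) ι l φ v xs ↔
       @Language.BoundedFormula.Realize Lang ℤ (str α β) ι l φ v' xs') := by
  classical
  let _ := str α β
  induction φ with
  | falsum => exact ⟨0, 1, one_pos, fun v v' xs xs' _ => Iff.rfl⟩
  | @equal l t₁ t₂ =>
    obtain ⟨c₁, h₁⟩ := term_lin (α := α) (β := β) t₁
    obtain ⟨c₂, h₂⟩ := term_lin (α := α) (β := β) t₂
    obtain ⟨i⟩ := ‹Nonempty d›
    obtain ⟨n, hn⟩ := exists_bound (fun k : Fin 2 => if k = 0 then c₁ else c₂) 1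
    refine ⟨n, 1, one_pos, fun v v' xs xs' h => ?_⟩
    show t₁.realize (Sum.elim v xs) = t₂.realize (Sum.elim v xs) ↔
      t₁.realize (Sum.elim v' xs') = t₂.realize (Sum.elim v' xs')
    rw [h₁, h₁, h₂, h₂]
    have hb : ∀ j, |c₂ j - c₁ j| ≤ (n : ℤ) := by
      have := (hn 0 1).2
      simpa using this
    -- equality of the two terms is a sign condition
    have key : ∀ x : ι ⊕ Fin l → ℤ, (∑ j, c₁ j * x j = ∑ j, c₂ j * x j) ↔
        ∃ f : ℤ, ¬ (0 < lin (θ i) (fun j => c₂ j - c₁ j) 0 f x) ∧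
          ¬ (0 < lin (θ i) (fun j => -(c₂ j - c₁ j)) (-0) (-f) x) := by
      intro x
      simp only [lin_neg]
      constructor
      · intro hx
        refine ⟨∑ j, (c₂ j - c₁ j) * ⌊(x j : ℝ) * θ i⌋, ?_⟩
        have h0 : ∑ j, (c₂ j - c₁ j) * x j + 0 = 0 := by
          simp only [sub_mul, Finset.sum_sub_distrib]; linarith
        rw [lin_eq, h0]
        simp
      · rintro ⟨f, hf1, hf2⟩
        have hf : lin (θ i) (fun j => c₂ j - c₁ j) 0 f x = 0 := by
          apply le_antisymm <;> linarith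
        rw [lin_eq] at hf
        have h0 := hθ.eq_zero i (∑ j, (c₂ j - c₁ j) * x j + 0)
          (∑ j, (c₂ j - c₁ j) * ⌊(x j : ℝ) * θ i⌋ - f) (by push_cast at hf ⊢; linarith)
        simp only [sub_mul, Finset.sum_sub_distrib] at h0
        linarith
    rw [key, key]
    constructor
    · rintro ⟨f, hf1, hf2⟩
      exact ⟨f, by rwa [← h.sgn i _ 0 f hb (by simp)],
        by rwa [← h.sgn i _ _ _ (fun j => by rw [abs_neg]; exact hb j) (by simp)]⟩
    · rintro ⟨f, hf1, hf2⟩
      exact ⟨f, by rwa [h.sgn i _ 0 f hb (by simp)],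
        by rwa [h.sgn i _ _ _ (fun j => by rw [abs_neg]; exact hb j) (by simp)]⟩
  | @rel l k R ts =>
    match k, R, ts with
    | _, Rels.first, ts =>
      choose c hc using fun k => term_lin (α := α) (β := β) (ts k)
      obtain ⟨n, N, hN, h⟩ := cyc_ctrl hα c
      refine ⟨n, N, hN, fun v v' xs xs' hx => ?_⟩
      have := h _ _ hx
      rw [← hc, ← hc, ← hc, ← hc, ← hc, ← hc] at this
      exact this
    | _, Rels.second, ts =>
      choose c hc using fun k => term_lin (α := α) (β := β) (ts k)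
      obtain ⟨n, N, hN, h⟩ := cyc_ctrl hβ c
      refine ⟨n, N, hN, fun v v' xs xs' hx => ?_⟩
      have := h _ _ hx
      rw [← hc, ← hc, ← hc, ← hc, ← hc, ← hc] at this
      exact this
  | imp φ ψ ihφ ihψ =>
    obtain ⟨n₁, N₁, hN₁, h₁⟩ := ihφ
    obtain ⟨n₂, N₂, hN₂, h₂⟩ := ihψ
    refine ⟨max n₁ n₂, N₁ * N₂, Nat.mul_pos hN₁ hN₂, fun v v' xs xs' hx => ?_⟩
    exact imp_congr (h₁ v v' xs xs' (hx.mono (le_max_left _ _) (Dvd.intro _ rfl)))
      (h₂ v v' xs xs' (hx.mono (le_max_right _ _) (Dvd.intro_left _ rfl)))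
  | @all l φ ih =>
    obtain ⟨n, N, hN, h⟩ := ih
    set n' := max n 1 with hn'
    refine ⟨2 * n' * n' + n', N * n'.factorial, Nat.mul_pos hN (Nat.factorial_pos _),
      fun v v' xs xs' hx => ?_⟩
    have key : ∀ (v v' : ι → ℤ) (xs xs' : Fin l → ℤ),
        Rel θ (2 * n' * n' + n') (N * n'.factorial) (Sum.elim v xs) (Sum.elim v' xs') →
        (∀ x0 : ℤ, φ.Realize v (Fin.snoc xs x0)) → ∀ x0 : ℤ, φ.Realize v' (Fin.snoc xs' x0) := by
      intro v v' xs xs' hx hall y0
      obtain ⟨x0, hx0⟩ := ext hθ (le_max_right n 1) hN hx.symm y0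
      have h1 := (hx0.reindex (sigma ι l)).symm
      rw [sigma_comp, sigma_comp] at h1
      exact (h v v' _ _ (h1.mono (le_max_left _ _) dvd_rfl)).1 (hall x0)
    exact ⟨key v v' xs xs' hx, key v' v xs' xs hx.symm⟩

theorem formula_inv' (hθ : Indep θ) [Nonempty d] (hα : Ctrl θ α) (hβ : Ctrl θ β)
    {ι : Type*} [Fintype ι] (φ : Lang.Formula ι) :
    ∃ n N : ℕ, 0 < N ∧ ∀ (v v' : ι → ℤ), Rel θ n N v v' →
      (@Language.Formula.Realize Lang ℤ (str α β) ι φ v ↔
       @Language.Formula.Realize Lang ℤ (str α β) ι φ v') := by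
  obtain ⟨n, N, hN, h⟩ := formula_inv hθ hα hβ φ
  refine ⟨n, N, hN, fun v v' hv => ?_⟩
  have h1 := hv.reindex (Equiv.sumEmpty ι (Fin 0))
  have h2 : ∀ w : ι → ℤ, w ∘ (Equiv.sumEmpty ι (Fin 0)) = Sum.elim w (default : Fin 0 → ℤ) := by
    intro w
    funext z; rcases z with i | k
    · rfl
    · exact k.elim0
  rw [h2, h2] at h1
  have h3 := h v v' default default h1
  have h4 : ∀ (w : ι → ℤ) (xs : Fin 0 → ℤ),
      (@Language.Formula.Realize Lang ℤ (str α β) ι φ w ↔
        @Language.BoundedFormula.Realize Lang ℤ (str α β) ι 0 φ w xs) := by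
    intro w xs
    unfold Language.Formula.Realize
    exact iff_of_eq (congrArg
      (fun z => @Language.BoundedFormula.Realize Lang ℤ (str α β) ι 0 φ w z)
      (Subsingleton.elim _ _))
  rw [h4 v default, h4 v' default]
  exact h3

end

end Pool.Agent.MP66c0d0
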