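import Mathlib
import Pool.Agent.MP66c0d0.Inv

open FirstOrder

namespace Pool.Agent.MP66c0d0

section
variable {α β : ℝ} {d : Type*} [Fintype d] {θ : d → ℝ}

/-- Exponentials beat polynomials. -/
theorem exists_pow_lt (p C : ℕ) : ∃ K : ℕ, (K + 1) ^ p * C < 2 ^ K := by
  have h := tendsto_pow_const_div_const_pow_of_one_lt p (one_lt_two : (1 : ℝ) < 2)
  have h2 : Filter.Tendsto (fun n : ℕ => ((n : ℝ) ^ p / 2 ^ n) * (2 * C)) Filter.atTop (nhds 0) := by
    simpa using h.mul_const (2 * C : ℝ)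
  have h3 := (h2.eventually (gt_mem_nhds one_pos)).and (Filter.eventually_ge_atTop 1)
  obtain ⟨n, hn, hn1⟩ := h3.exists
  obtain ⟨K, rfl⟩ : ∃ K, n = K + 1 := ⟨n - 1, by omega⟩
  refine ⟨K, ?_⟩
  have h4 : (0 : ℝ) < 2 ^ (K + 1) := by positivity
  rw [div_mul_eq_mul_div, div_lt_one h4] at hn
  have h5 : (((K + 1 : ℕ) : ℝ) ^ p * (2 * C)) < 2 ^ (K + 1) := hn
  have h6 : ((K + 1) ^ p * (2 * C) : ℕ) < 2 ^ (K + 1) := by exact_mod_cast h5
  rw [pow_succ 2 K] at h6
  nlinarith

/-- Nested finite sets with the same cardinality coincide. -/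
theorem filter_eq_of_card_eq {K : ℕ} (g : Fin K → ℝ) (c c' : ℝ)
    (h : (Finset.univ.filter fun k => 0 < g k + c).card =
      (Finset.univ.filter fun k => 0 < g k + c').card) (k : Fin K) :
    0 < g k + c ↔ 0 < g k + c' := by
  rcases le_total c c' with hc | hc
  · have hsub : (Finset.univ.filter fun k => 0 < g k + c) ⊆
        (Finset.univ.filter fun k => 0 < g k + c') := by
      intro j hj
      simp only [Finset.mem_filter, Finset.mem_univ, true_and] at hj ⊢
      linarith
    have heq := Finset.eq_of_subset_of_card_le hsub h.ge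
    have := congrArg (fun s => k ∈ s) heq
    simpa using this
  · have hsub : (Finset.univ.filter fun k => 0 < g k + c') ⊆
        (Finset.univ.filter fun k => 0 < g k + c) := by
      intro j hj
      simp only [Finset.mem_filter, Finset.mem_univ, true_and] at hj ⊢
      linarith
    have heq := Finset.eq_of_subset_of_card_le hsub h.le
    have := congrArg (fun s => k ∈ s) heq
    simpa using this.symm

/-- The linear part of `lin` splits over a sum type. -/
theorem lin_sum {κ κ' : Type*} [Fintype κ] [Fintype κ'] (t : ℝ) (m : κ ⊕ κ' → ℤ) (e f : ℤ)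
    (x : κ → ℤ) (y : κ' → ℤ) :
    lin t m e f (Sum.elim x y) = (∑ j, (m (Sum.inl j) : ℝ) * Int.fract ((x j : ℝ) * t)) +
      lin t (fun j => m (Sum.inr j)) e f y := by
  simp only [lin, Fintype.sum_sum_type, Sum.elim_inl, Sum.elim_inr]
  ring

/-- A uniform bound for the non-constant part of `lin`. -/
theorem exists_lin_bound {κ : Type*} [Fintype κ] (θ : d → ℝ) (n : ℕ) :
    ∃ F : ℕ, ∀ (i : d) (m : κ → ℤ) (e : ℤ) (x : κ → ℤ), (∀ j, |m j| ≤ n) → |e| ≤ n →
      |lin (θ i) m e 0 x| ≤ F := by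
  obtain ⟨F, hF⟩ := exists_nat_ge ((Fintype.card κ : ℝ) * n + n * ∑ i, |θ i|)
  refine ⟨F, fun i m e x hm he => le_trans ?_ hF⟩
  have h1 : |∑ j, (m j : ℝ) * Int.fract ((x j : ℝ) * θ i)| ≤ (Fintype.card κ : ℝ) * n := by
    calc |∑ j, (m j : ℝ) * Int.fract ((x j : ℝ) * θ i)|
        ≤ ∑ j, |(m j : ℝ) * Int.fract ((x j : ℝ) * θ i)| := Finset.abs_sum_le_sum_abs _ _
      _ ≤ ∑ _j : κ, (n : ℝ) := by
          refine Finset.sum_le_sum fun j _ => ?_
          rw [abs_mul, abs_of_nonneg (Int.fract_nonneg ((x j : ℝ) * θ i))]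
          have h2 : |(m j : ℝ)| ≤ n := by exact_mod_cast hm j
          have h3 := (Int.fract_lt_one ((x j : ℝ) * θ i)).le
          calc |(m j : ℝ)| * Int.fract ((x j : ℝ) * θ i) ≤ |(m j : ℝ)| * 1 :=
                mul_le_mul_of_nonneg_left h3 (abs_nonneg _)
            _ ≤ n := by rw [mul_one]; exact h2
      _ = (Fintype.card κ : ℝ) * n := by simp
  have h2 : |(e : ℝ) * θ i| ≤ n * ∑ i, |θ i| := by
    rw [abs_mul]
    have h3 : |(e : ℝ)| ≤ n := by exact_mod_cast he
    have h4 : |θ i| ≤ ∑ i, |θ i| :=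
      Finset.single_le_sum (f := fun i => |θ i|) (fun _ _ => abs_nonneg _) (Finset.mem_univ i)
    exact mul_le_mul h3 h4 (abs_nonneg _) (Nat.cast_nonneg _)
  have h3 : lin (θ i) m e 0 x = (∑ j, (m j : ℝ) * Int.fract ((x j : ℝ) * θ i)) + e * θ i := by
    simp [lin]
  rw [h3]
  exact (abs_add_le _ _).trans (add_le_add h1 h2)

/-- Counting of traces: an invariant set does not shatter large finite sets. -/
theorem no_shatter {m n : ℕ} (n₀ N : ℕ) (hN : 0 < N) (P : (Fin m ⊕ Fin n → ℤ) → Prop)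
    (hP : ∀ v v' : Fin m ⊕ Fin n → ℤ, Rel θ n₀ N v v' → (P v ↔ P v')) :
    ∃ K : ℕ, ¬ ∃ (a : Fin K → Fin m → ℤ) (b : Finset (Fin K) → Fin n → ℤ),
      ∀ i S, P (Sum.elim (a i) (b S)) ↔ i ∈ S := by
  classical
  have hNe : NeZero N := ⟨hN.ne'⟩
  obtain ⟨F, hF⟩ := exists_lin_bound (κ := Fin m ⊕ Fin n) θ n₀
  let Idx : Type _ := d × ((Fin m ⊕ Fin n) → (Set.Icc (-(n₀ : ℤ)) n₀)) ×
    (Set.Icc (-(n₀ : ℤ)) n₀) × (Set.Icc (-(F : ℤ)) F)
  have hIdx : Fintype Idx := inferInstance
  let R : Type _ := (Fin n → ZMod N) × (d → Fin n → ZMod N)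
  have hR : Fintype R := inferInstance
  have hcard : ∀ K : ℕ, Fintype.card ((Idx → Fin (K + 1)) × R) =
      (K + 1) ^ Fintype.card Idx * Fintype.card R := by
    intro K
    rw [Fintype.card_prod, Fintype.card_fun, Fintype.card_fin]
  obtain ⟨K, hK⟩ := exists_pow_lt (Fintype.card Idx) (Fintype.card R)
  refine ⟨K, ?_⟩
  rintro ⟨a, b, hab⟩
  let data : Finset (Fin K) → (Idx → Fin (K + 1)) × R := fun S =>
    (fun I => ⟨(Finset.univ.filter fun k => 0 < lin (θ I.1) (fun j => (I.2.1 j : ℤ)) I.2.2.1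
        I.2.2.2 (Sum.elim (a k) (b S))).card,
        Nat.lt_succ_of_le ((Finset.card_filter_le _ _).trans (by simp))⟩,
      fun j => ((b S j : ℤ) : ZMod N), fun i j => ((⌊(b S j : ℝ) * θ i⌋ : ℤ) : ZMod N))
  have hinj : Function.Injective data := by
    intro S S' hSS
    have hrel : ∀ k, Rel θ n₀ N (Sum.elim (a k) (b S)) (Sum.elim (a k) (b S')) := by
      intro k
      refine ⟨?_, ?_, ?_⟩
      · intro i mm e f hm he
        by_cases hf : |f| ≤ F
        · have h1 := congrArg (fun z => ((z.1 (i, fun j => ⟨mm j, abs_le.1 (hm j)⟩,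
            ⟨e, abs_le.1 he⟩, ⟨f, abs_le.1 hf⟩) : Fin (K + 1)) : ℕ)) hSS
          simp only [data] at h1
          simp only [lin_sum] at h1 ⊢
          exact filter_eq_of_card_eq
            (fun k => ∑ j, (mm (Sum.inl j) : ℝ) * Int.fract ((a k j : ℝ) * θ i)) _ _ h1 k
        · have hx : ∀ z : Fin m ⊕ Fin n → ℤ, lin (θ i) mm e f z = lin (θ i) mm e 0 z + f := by
            intro z
            have := lin_add_f (θ i) mm e 0 f z
            rwa [zero_add] at this
          rw [hx, hx]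
          have hb1 := abs_le.1 (hF i mm e (Sum.elim (a k) (b S)) hm he)
          have hb2 := abs_le.1 (hF i mm e (Sum.elim (a k) (b S')) hm he)
          rw [not_le, lt_abs] at hf
          rcases hf with hf | hf
          · have hf' : (F : ℝ) < f := by exact_mod_cast hf
            constructor <;> intro _ <;> linarith [hb1.1, hb2.1]
          · have hf' : (F : ℝ) < -(f : ℝ) := by exact_mod_cast hf
            constructor <;> intro _ <;> exfalso <;> linarith [hb1.2, hb2.2]
      · rintro (j | j)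
        · simp
        · have h1 := congrFun (congrArg (fun z => z.2.1) hSS) j
          simp only [data] at h1
          rw [Sum.elim_inr, Sum.elim_inr, ← neg_sub, dvd_neg]
          exact (ZMod.intCast_eq_intCast_iff_dvd_sub _ _ _).1 h1
      · rintro i (j | j)
        · simp
        · have h1 := congrFun (congrFun (congrArg (fun z => z.2.2) hSS) i) j
          simp only [data] at h1
          rw [Sum.elim_inr, Sum.elim_inr, ← neg_sub, dvd_neg]
          exact (ZMod.intCast_eq_intCast_iff_dvd_sub _ _ _).1 h1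
    ext k
    rw [← hab k S, ← hab k S']
    exact hP _ _ (hrel k)
  have h1 := Fintype.card_le_of_injective data hinj
  rw [hcard, Fintype.card_finset, Fintype.card_fin] at h1
  omega

end

end Pool.Agent.MP66c0d0
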