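import Mathlib
import Pool.Agent.MP66c0d0.Count

open FirstOrder

namespace Pool.Agent.MP66c0d0

/-- Variables of the shattering sentence. -/
abbrev ShVar (m n K : ℕ) : Type := (Fin K × Fin m) ⊕ (Finset (Fin K) × Fin n)

/-- Substitution of variables for the pair `(a i, b S)`. -/
def shSub (m n K : ℕ) (i : Fin K) (S : Finset (Fin K)) : (Fin m ⊕ Fin n) → Empty ⊕ ShVar m n K :=
  Sum.elim (fun j => Sum.inr (Sum.inl (i, j))) (fun j => Sum.inr (Sum.inr (S, j)))

open Classical in
/-- The formula saying that `φ` shatters a set of size `K`, with all variables free. -/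
noncomputable def shForm {L : FirstOrder.Language} {m n : ℕ} (φ : L.Formula (Fin m ⊕ Fin n))
    (K : ℕ) : L.Formula (Empty ⊕ ShVar m n K) :=
  Language.Formula.iInf (fun p : Fin K × Finset (Fin K) =>
    if p.1 ∈ p.2 then Language.Formula.relabel (shSub m n K p.1 p.2) φ
    else (Language.Formula.relabel (shSub m n K p.1 p.2) φ).not)

theorem realize_shForm {L : FirstOrder.Language} {m n : ℕ} (φ : L.Formula (Fin m ⊕ Fin n))
    (K : ℕ) (X : Type*) [L.Structure X] (w : ShVar m n K → X) :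
    (shForm φ K).Realize (Sum.elim (default : Empty → X) w) ↔
      ∀ i S, φ.Realize (Sum.elim (fun j => w (Sum.inl (i, j))) (fun j => w (Sum.inr (S, j)))) ↔
        i ∈ S := by
  simp only [shForm, Language.Formula.realize_iInf, Prod.forall]
  refine forall_congr' fun i => forall_congr' fun S => ?_
  have h1 : (Sum.elim (default : Empty → X) w) ∘ shSub m n K i S =
      Sum.elim (fun j => w (Sum.inl (i, j))) (fun j => w (Sum.inr (S, j))) := by
    funext z
    rcases z with j | j <;> rfl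
  by_cases hiS : i ∈ S
  · simp only [hiS, if_true, iff_true]
    rw [Language.Formula.realize_relabel, h1]
  · simp only [hiS, if_false, iff_false]
    rw [Language.Formula.realize_not, Language.Formula.realize_relabel, h1]

theorem realize_shSentence {L : FirstOrder.Language} {m n : ℕ} (φ : L.Formula (Fin m ⊕ Fin n))
    (K : ℕ) (X : Type*) [L.Structure X] :
    X ⊨ ((shForm φ K).iExs (ShVar m n K) : L.Sentence) ↔
      ∃ (a : Fin K → Fin m → X) (b : Finset (Fin K) → Fin n → X),
      ∀ i S, φ.Realize (Sum.elim (a i) (b S)) ↔ i ∈ S := by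
  rw [Language.Sentence.Realize, Language.Formula.realize_iExs]
  constructor
  · rintro ⟨w, hw⟩
    rw [realize_shForm] at hw
    exact ⟨fun i j => w (Sum.inl (i, j)), fun S j => w (Sum.inr (S, j)), hw⟩
  · rintro ⟨a, b, hab⟩
    refine ⟨Sum.elim (fun p => a p.1 p.2) (fun p => b p.1 p.2), ?_⟩
    rw [realize_shForm]
    exact hab

/-- A theory with a model `M₀` in which no formula shatters arbitrarily large finite sets
is NIP. -/
theorem isNIP_of_finite.{w, u, v, u₀} {L : FirstOrder.Language.{u, v}} (M₀ : Type u₀)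
    [L.Structure M₀]
    (h : ∀ (m n : ℕ) (φ : L.Formula (Fin m ⊕ Fin n)), ∃ K : ℕ,
      ¬ ∃ (a : Fin K → Fin m → M₀) (b : Finset (Fin K) → Fin n → M₀),
      ∀ i S, φ.Realize (Sum.elim (a i) (b S)) ↔ i ∈ S) :
    IsNIP.{w} (L.completeTheory M₀) := by
  intro M _ _ hM m n φ ⟨a, b, hab⟩
  obtain ⟨K, hK⟩ := h m n φ
  apply hK
  rw [← realize_shSentence φ K M₀]
  have hM' : M ⊨ L.completeTheory M₀ := hM
  rw [← Language.realize_iff_of_model_completeTheory M₀ M, realize_shSentence]
  refine ⟨fun i => a i, fun S => b {k | ∃ i ∈ S, (i : ℕ) = k}, fun i S => ?_⟩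
  rw [hab]
  constructor
  · rintro ⟨j, hj, hji⟩
    have : j = i := Fin.ext hji
    rwa [← this]
  · intro hi
    exact ⟨i, hi, rfl⟩

theorem indep_pair {α β : ℝ} (h : ∀ p q r : ℤ, (p : ℝ) * α + q * β = r → p = 0 ∧ q = 0) :
    Indep ![α, β] := by
  intro m k hk
  rw [Fin.sum_univ_two] at hk
  obtain ⟨h1, h2⟩ := h (m 0) (m 1) k (by simpa using hk)
  funext i
  fin_cases i
  · exact h1
  · exact h2

theorem indep_single {α : ℝ} (hα : Irrational α) : Indep (fun _ : Unit => α) := by
  intro m k hk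
  simp only [Finset.univ_unique, Finset.sum_singleton] at hk
  funext i
  by_contra hm
  apply hα
  refine ⟨(k : ℚ) / (m () : ℚ), ?_⟩
  have h1 : (m () : ℝ) ≠ 0 := by
    intro h0
    apply hm
    have : m () = 0 := by exact_mod_cast h0
    exact this
  push_cast
  rw [div_eq_iff h1, mul_comm]
  exact hk.symm

theorem nip_aux.{w, u} (α β : ℝ) {d : Type u} [Fintype d] [Nonempty d] {θ : d → ℝ} (hθ : Indep θ)
    (hα : Ctrl θ α) (hβ : Ctrl θ β) :
    IsNIP.{w} (@Language.completeTheory Lang ℤ (str α β)) := by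
  let _ := str α β
  apply isNIP_of_finite
  intro m n φ
  obtain ⟨n₀, N, hN, h⟩ := formula_inv' hθ hα hβ φ
  exact no_shatter n₀ N hN (fun v => φ.Realize v) h

/-- A rational number is controlled by any `θ`. -/
theorem ctrl_rat {d : Type*} [Nonempty d] (θ : d → ℝ) (c : ℚ) : Ctrl θ (c : ℝ) := by
  obtain ⟨i⟩ := ‹Nonempty d›
  refine ⟨i, c.den, 0, c.num, c.pos, ?_⟩
  have h : ((c.den : ℚ) * c : ℚ) = c.num := by
    rw [mul_comm]; exact Rat.mul_den_eq_num c
  have h2 : (((c.den : ℚ) * c : ℚ) : ℝ) = ((c.num : ℚ) : ℝ) := by rw [h]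
  push_cast at h2
  rw [h2]
  simp

theorem nip_irrational.{w} (α β : ℝ) (hα : Irrational α) :
    IsNIP.{w} (@Language.completeTheory Lang ℤ (str α β)) := by
  by_cases h : ∀ p q r : ℤ, (p : ℝ) * α + q * β = r → p = 0 ∧ q = 0
  · exact nip_aux α β (indep_pair h) ⟨0, 1, 1, 0, one_pos, by simp⟩ ⟨1, 1, 1, 0, one_pos, by simp⟩
  · push Not at h
    obtain ⟨p, q, r, h1, h2⟩ := h
    have hq : q ≠ 0 := by
      intro hq
      rw [hq] at h1
      have hp : p ≠ 0 := fun hp => h2 hp hq
      apply hα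
      refine ⟨(r : ℚ) / (p : ℚ), ?_⟩
      have hpR : (p : ℝ) ≠ 0 := by exact_mod_cast hp
      push_cast
      rw [div_eq_iff hpR]
      rw [← h1]; simp [mul_comm]
    refine nip_aux α β (indep_single hα) ⟨(), 1, 1, 0, one_pos, by simp⟩ ?_
    rcases lt_or_gt_of_ne hq with hq | hq
    · refine ⟨(), q.natAbs, p, -r, Int.natAbs_pos.2 hq.ne, ?_⟩
      have h3 : ((q.natAbs : ℕ) : ℝ) = -(q : ℝ) := by
        rw [Nat.cast_natAbs, abs_of_neg hq]; push_cast; rfl
      rw [h3]
      push_cast
      linarith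
    · refine ⟨(), q.natAbs, -p, r, Int.natAbs_pos.2 hq.ne', ?_⟩
      have h3 : ((q.natAbs : ℕ) : ℝ) = (q : ℝ) := by
        rw [Nat.cast_natAbs, abs_of_pos hq]
      rw [h3]
      push_cast
      linarith

/-- For all real `α`, `β` the structure `(ℤ; +, C_α, C_β)` is NIP. -/
theorem nip_all.{w} (α β : ℝ) : IsNIP.{w} (@Language.completeTheory Lang ℤ (str α β)) := by
  by_cases hα : Irrational α
  · exact nip_irrational α β hα
  · rw [Irrational, not_not] at hα
    obtain ⟨a, rfl⟩ := hα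
    by_cases hβ : Irrational β
    · exact nip_aux _ β (indep_single hβ) (ctrl_rat _ a) ⟨(), 1, 1, 0, one_pos, by simp⟩
    · rw [Irrational, not_not] at hβ
      obtain ⟨b, rfl⟩ := hβ
      exact nip_aux _ _ (indep_single irrational_sqrt_two) (ctrl_rat _ a) (ctrl_rat _ b)

end Pool.Agent.MP66c0d0
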